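import Pool.Agent.Lib_helper84.JO.MaassMain

/-!
# Jutila's question on the second moment of GL(2) L-functions

For every cuspidal automorphic form on `GL₂` over `ℚ` (holomorphic newforms of any weight `k ≥ 1`,
Hecke-Maass newforms of weight `0` and `1`, any level and nebentypus) the error term of the second
moment of the L-function on the critical line is `Ω(√T)`.
-/

set_option autoImplicit false

namespace Pool.Agent.Results.MP_f4574f_nt.JutilaOmega

open UpperHalfPlane Pool.Agent.JO

theorem result :
    (∀ (N : ℕ) [NeZero N] (χ : DirichletCharacter ℂ N) (k : ℕ)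
      (f : CuspForm (CongruenceSubgroup.Gamma1 N) (k : ℤ)) (lam : ℕ → ℂ),
      1 ≤ k → IsHolEigenform N k χ f lam → OmegaConclusion lam) ∧
    ∀ (N : ℕ) [NeZero N] (χ : DirichletCharacter ℂ N) (k : ℕ) (ev : ℝ) (f : ℍ → ℂ) (a : ℕ → ℂ),
      IsHeckeMaass N χ k ev f a → OmegaConclusion a :=
  ⟨hol_statement, maass_statement⟩

end Pool.Agent.Results.MP_f4574f_nt.JutilaOmega
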